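import Pool.Agent.Helper30.KC.GoalsT
import Pool.Agent.Helper70.KC.EV
import Pool.Agent.Helper28.KC.CN2
import Pool.Agent.Helper59.KC.CY

/-!
# Packet KT-SZ: existence of the shortest cycle which does not bound
-/

set_option autoImplicit false

namespace Pool.Agent.Helper1.KT

open scoped Classical
open Finset Pool.Agent.Helper94.KC

theorem sz (hEV : StmtEV) (hCN2 : StmtCN2) : Pool.Agent.Helper30.KC.StmtSZ := by
  intro V _ T c hT hEW h1
  obtain ⟨-, -, -, hcyc, -, -⟩ := hEV V T hT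
  have h2 : ((ed T).powerset.filter (fun z => Even2 z ∧ ¬ Bounds T z)).Nonempty := by
    obtain ⟨z, hz, hz2, hzb⟩ := h1
    exact ⟨z, Finset.mem_filter.2 ⟨Finset.mem_powerset.2 hz, hz2, hzb⟩⟩
  obtain ⟨z, hzm, hmin⟩ := Finset.exists_min_image _ (fun z => z.card) h2
  obtain ⟨hz, hz2, hzb⟩ := Finset.mem_filter.1 hzm
  rw [Finset.mem_powerset] at hz
  obtain ⟨x, w, hw, hwz, hwb⟩ := hCN2 V T hT z hz hz2 hzb
  obtain ⟨hw2, hwc, hwe⟩ := hcyc x w hw
  refine ⟨x, w, ⟨hw, hwb, ?_⟩, ?_⟩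
  · intro z' hz' hz2' hzb'
    have h3 := hmin z' (Finset.mem_filter.2 ⟨Finset.mem_powerset.2 hz', hz2', hzb'⟩)
    have h4 := Finset.card_le_card hwz
    rw [hwc] at h4
    exact h4.trans h3
  · by_contra hlt
    push Not at hlt
    obtain ⟨D, hD⟩ := hEW x w hw hlt
    exact hwb ⟨D, hD.sub, hD.bdy⟩

theorem pSZ : Pool.Agent.Helper30.KC.StmtSZ :=
  sz Pool.Agent.Helper70.KC.ev
    (Pool.Agent.Helper28.KC.cn2 Pool.Agent.Helper70.KC.ev Pool.Agent.Helper59.KC.cy)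

end Pool.Agent.Helper1.KT
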